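import Pool.Agent.Lib.MP_ea1188_al.KG.S.Stat
import Pool.Agent.Lib.MP_ea1188_al.KG.H60.Final

/-! # Transfer of the main theorem to the definitions of `Stat.lean` (MP_ea1188_al, helper60) -/

set_option autoImplicit false

namespace GrigK

open DirectSum

lemma aFun_eq : aFun = KG.aF := by
  funext w
  rcases w with _ | ⟨c, w⟩ <;> rfl

lemma bcdFun_eq (w : List Bool) : ∀ i, bcdFun i w = KG.vF i w := by
  induction w with
  | nil => intro i; fin_cases i <;> rfl
  | cons c w ih =>
    intro i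
    fin_cases i <;> cases c <;> simp [bcdFun, KG.vF, aFun_eq, ih]

lemma G_eq : G = KG.Grig := by
  have ha : a = KG.pa := Equiv.ext fun w => congrFun aFun_eq w
  have hb : ∀ i, bcd i = KG.pv i := fun i => Equiv.ext fun w => bcdFun_eq w i
  rw [G, KG.Grig, ha, hb, hb, hb]

section
variable (R : Type) [Ring R]

lemma actVec_stab {n m : ℕ} (h : n ≤ m) (M : Matrix (Fin n) (Fin n) R) (v : ℕ → R) :
    actVec m (KG.stab h M) v = actVec n M v := by
  funext i
  let e : Fin n ⊕ Fin (m - n) ≃ Fin m := finSumFinEquiv.trans (finCongr (Nat.add_sub_cancel' h))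
  by_cases him : i < m
  · simp only [actVec, dif_pos him]
    by_cases hin : i < n
    · simp only [dif_pos hin]
      rw [← Equiv.sum_comp e, Fintype.sum_sum_type]
      have h1 : ∀ j : Fin n, KG.stab h M ⟨i, him⟩ (e (Sum.inl j)) * v (e (Sum.inl j)) =
          M ⟨i, hin⟩ j * v j := by
        intro j
        simp [KG.stab, e, hin]
      have h2 : ∀ j : Fin (m - n), KG.stab h M ⟨i, him⟩ (e (Sum.inr j)) * v (e (Sum.inr j)) =
          0 := by
        intro j
        have : ¬ i = n + j := by omega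
        simp [KG.stab, e, Fin.ext_iff, this]
      rw [Finset.sum_congr rfl fun j _ => h1 j, Finset.sum_congr rfl fun j _ => h2 j]
      simp
    · simp only [dif_neg hin]
      rw [Finset.sum_eq_single (⟨i, him⟩ : Fin m)]
      · simp [KG.stab, hin]
      · intro j _ hj
        have : ¬ (⟨i, him⟩ : Fin m) = j := fun h => hj h.symm
        simp [KG.stab, hin, this]
      · simp
  · have hin : ¬ i < n := by omega
    simp only [actVec, dif_neg him, dif_neg hin]

lemma glPerm_stab {n m : ℕ} (h : n ≤ m) (u : Matrix.GeneralLinearGroup (Fin n) R) :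
    glPerm R m (KG.stabHom R n m h u) = glPerm R n u :=
  Equiv.ext fun v => actVec_stab R h u.val v

lemma glPerm_inj (n : ℕ) : Function.Injective (glPerm R n) := by
  intro u u' h
  apply Units.ext
  ext i j
  have h1 := congrFun (DFunLike.congr_fun h (Pi.single (j : ℕ) (1 : R))) i
  have h2 : ∀ w : (Matrix (Fin n) (Fin n) R)ˣ,
      glPerm R n w (Pi.single (j : ℕ) (1 : R)) i = w.val i j := by
    intro w
    show actVec n w.val (Pi.single (j : ℕ) (1 : R)) i = w.val i j
    simp only [actVec, dif_pos i.is_lt]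
    rw [Finset.sum_eq_single j]
    · simp
    · intro k _ hk
      have : (k : ℕ) ≠ j := fun h => hk (Fin.ext h)
      simp [Pi.single_apply, this]
    · simp
  rw [h2, h2] at h1
  exact h1

/-- `GL_n(R) → GL(R)`. -/
def toGLR (n : ℕ) : Matrix.GeneralLinearGroup (Fin n) R →* GLR R :=
  (glPerm R n).codRestrict (GLR R) (fun u => Subgroup.mem_iSup_of_mem n ⟨u, rfl⟩)

lemma toGLR_stab (n m : ℕ) (h : n ≤ m) (u : Matrix.GeneralLinearGroup (Fin n) R) :
    toGLR R m (KG.stabHom R n m h u) = toGLR R n u :=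
  Subtype.ext (glPerm_stab R h u)

/-- The isomorphism between the two versions of `GL(R)`. -/
noncomputable def glHom : KG.GLinf R →* GLR R where
  toFun := DirectLimit.lift _ (fun n u => toGLR R n u) (fun n m h u => (toGLR_stab R n m h u).symm)
  map_one' := DirectLimit.lift_one (G := fun n : ℕ => Matrix.GeneralLinearGroup (Fin n) R)
    (f := fun n m h => KG.stabHom R n m h) (C := GLR R) (toGLR R)
    (fun n m h u => (toGLR_stab R n m h u).symm)
  map_mul' := DirectLimit.lift_mul (G := fun n : ℕ => Matrix.GeneralLinearGroup (Fin n) R)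
    (f := fun n m h => KG.stabHom R n m h) (C := GLR R) (toGLR R)
    (fun n m h u => (toGLR_stab R n m h u).symm)

lemma glHom_mk (n : ℕ) (u : Matrix.GeneralLinearGroup (Fin n) R) :
    glHom R (⟦⟨n, u⟩⟧ : KG.GLinf R) = toGLR R n u := rfl

lemma glHom_bij : Function.Bijective (glHom R) := by
  constructor
  · rw [injective_iff_map_eq_one]
    intro g hg
    obtain ⟨n, u, rfl⟩ := KG.GLinf_exists R g
    rw [glHom_mk] at hg
    have h1 : glPerm R n u = 1 := congrArg Subtype.val hg
    have h2 : u = 1 := glPerm_inj R n (h1.trans (map_one _).symm)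
    rw [h2]
    exact (DirectLimit.one_def (G := fun n : ℕ => Matrix.GeneralLinearGroup (Fin n) R)
      (f := fun n m h => KG.stabHom R n m h) n).symm
  · rintro ⟨x, hx⟩
    have hd : Directed (· ≤ ·) (fun n : ℕ => (glPerm R n).range) := by
      apply directed_of_isDirected_le
      rintro n m h _ ⟨u, rfl⟩
      exact ⟨KG.stabHom R n m h u, glPerm_stab R h u⟩
    obtain ⟨n, u, hu⟩ := (Subgroup.mem_iSup_of_directed hd).1 hx
    exact ⟨⟦⟨n, u⟩⟧, Subtype.ext hu⟩

/-- The isomorphism between the two versions of `K₁`. -/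
noncomputable def k1e : KG.K1 R ≃* K1 R :=
  (MulEquiv.ofBijective (glHom R) (glHom_bij R)).abelianizationCongr

end

lemma partA_of (H : Subgroup (Equiv.Perm (List Bool))) (h : H = KG.Grig) :
    ∀ x : K1 (MonoidAlgebra (ZMod 2) H), ∃ m : ℕ, x ^ (2 ^ m) = 1 := by
  subst h
  intro x
  obtain ⟨m, hm⟩ := KG.H60.main.1 ((k1e _).symm x)
  refine ⟨m, (k1e (MonoidAlgebra (ZMod 2) KG.Grig)).symm.injective ?_⟩
  rw [map_pow, hm, map_one]

lemma map_infHeight {A B : Type} [CommGroup A] [CommGroup B] (e : A ≃* B) :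
    (infHeight A).map e.toMonoidHom = infHeight B := by
  ext y
  simp only [Subgroup.mem_map, infHeight, Subgroup.mem_iInf, MonoidHom.mem_range]
  constructor
  · rintro ⟨x, hx, rfl⟩ n
    obtain ⟨z, hz⟩ := hx n
    exact ⟨e z, by rw [← hz]; exact (map_pow e z _).symm⟩
  · intro h
    refine ⟨e.symm y, fun n => ?_, e.apply_symm_apply y⟩
    obtain ⟨z, hz⟩ := h n
    exact ⟨e.symm z, by rw [← hz]; exact (map_pow e.symm z _).symm⟩

lemma partB_of (H : Subgroup (Equiv.Perm (List Bool))) (h : H = KG.Grig) :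
    Nonempty ((K1 (MonoidAlgebra (ZMod 2) H) ⧸ infHeight (K1 (MonoidAlgebra (ZMod 2) H))) ≃*
      Multiplicative (⨁ p : ℕ × ℕ, ZMod (2 ^ (p.1 + 1)))) := by
  subst h
  obtain ⟨f⟩ := KG.H60.main.2.1
  refine ⟨MulEquiv.trans (QuotientGroup.congr _ _ (k1e (MonoidAlgebra (ZMod 2) KG.Grig)) ?_).symm f⟩
  exact map_infHeight (k1e (MonoidAlgebra (ZMod 2) KG.Grig))

lemma partC_of (H : Subgroup (Equiv.Perm (List Bool))) (h : H = KG.Grig) :
    ∀ (Q : Type) [AddCommGroup Q] [Module (MonoidAlgebra (ZMod 2) H) Q]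
      [Module.Finite (MonoidAlgebra (ZMod 2) H) Q] [Module.Projective (MonoidAlgebra (ZMod 2) H) Q],
      ∃ m r s : ℕ,
        Nonempty (((Fin (2 ^ m) → Q) × (Fin s → MonoidAlgebra (ZMod 2) H)) ≃ₗ[MonoidAlgebra
          (ZMod 2) H] (Fin (2 ^ m * r + s) → MonoidAlgebra (ZMod 2) H)) := by
  subst h
  exact KG.H60.main.2.2

/-- Part (A). -/
theorem partA : ∀ x : K1 F2G, ∃ m : ℕ, x ^ (2 ^ m) = 1 := partA_of G G_eq

/-- Part (B). -/
theorem partB : Nonempty ((K1 F2G ⧸ infHeight (K1 F2G)) ≃*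
    Multiplicative (⨁ p : ℕ × ℕ, ZMod (2 ^ (p.1 + 1)))) := partB_of G G_eq

/-- Part (C). -/
theorem partC : ∀ (Q : Type) [AddCommGroup Q] [Module F2G Q] [Module.Finite F2G Q]
    [Module.Projective F2G Q], ∃ m r s : ℕ,
      Nonempty (((Fin (2 ^ m) → Q) × (Fin s → F2G)) ≃ₗ[F2G] (Fin (2 ^ m * r + s) → F2G)) :=
  partC_of G G_eq

end GrigK
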