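import Mathlib

/-! # Definitions for the statements about `K₀` and `K₁` of `F₂[G]`, `G` the first Grigorchuk group

(MP_ea1188_al, helper60.) -/

set_option autoImplicit false

namespace GrigK

/-! ## The first Grigorchuk group, acting on the set of finite binary words -/

/-- `a(0w) = 1w`, `a(1w) = 0w`; the empty word is fixed. -/
def aFun : List Bool → List Bool
  | [] => []
  | c :: w => (!c) :: w

/-- The functions `b` (for `i = 0`), `c` (for `i = 1`), `d` (for `i = 2`):
`b(0w) = 0 a(w)`, `b(1w) = 1 c(w)`, `c(0w) = 0 a(w)`, `c(1w) = 1 d(w)`, `d(0w) = 0w`,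
`d(1w) = 1 b(w)`; the empty word is fixed. -/
def bcdFun : Fin 3 → List Bool → List Bool
  | _, [] => []
  | 0, false :: w => false :: aFun w
  | 0, true :: w => true :: bcdFun 1 w
  | 1, false :: w => false :: aFun w
  | 1, true :: w => true :: bcdFun 2 w
  | 2, false :: w => false :: w
  | 2, true :: w => true :: bcdFun 0 w

lemma aFun_aFun (w : List Bool) : aFun (aFun w) = w := by
  rcases w with _ | ⟨c, w⟩ <;> simp [aFun]

lemma bcdFun_bcdFun (w : List Bool) : ∀ i, bcdFun i (bcdFun i w) = w := by
  induction w with
  | nil => intro i; fin_cases i <;> rfl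
  | cons c w ih => intro i; fin_cases i <;> cases c <;> simp [bcdFun, aFun_aFun, ih]

/-- The permutation `a` of the set of binary words. -/
def a : Equiv.Perm (List Bool) := ⟨aFun, aFun, aFun_aFun, aFun_aFun⟩

/-- The permutations `b, c, d` (for `i = 0, 1, 2`) of the set of binary words. -/
def bcd (i : Fin 3) : Equiv.Perm (List Bool) :=
  ⟨bcdFun i, bcdFun i, fun w => bcdFun_bcdFun w i, fun w => bcdFun_bcdFun w i⟩

/-- The first Grigorchuk group `G`, the group of permutations generated by `a, b, c, d`. -/
def G : Subgroup (Equiv.Perm (List Bool)) := Subgroup.closure {a, bcd 0, bcd 1, bcd 2}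

/-- The group algebra `F₂[G]`. -/
def F2G : Type := MonoidAlgebra (ZMod 2) G

noncomputable instance instRingF2G : Ring F2G :=
  (inferInstance : Ring (MonoidAlgebra (ZMod 2) G))

/-! ## The group `K₁` of a ring -/

section K1

variable (R : Type) [Ring R]

/-- The column vector `diag(M, 1, 1, ...) v`, for an `n × n` matrix `M` and a column vector `v` of
infinite length. -/
def actVec {R : Type} [Ring R] (n : ℕ) (M : Matrix (Fin n) (Fin n) R) (v : ℕ → R) : ℕ → R :=
  fun i => if h : i < n then ∑ j : Fin n, M ⟨i, h⟩ j * v j else v i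

lemma actVec_one (n : ℕ) (v : ℕ → R) : actVec n (1 : Matrix (Fin n) (Fin n) R) v = v := by
  funext i
  by_cases h : i < n
  · simp only [actVec, dif_pos h, Matrix.one_apply, ite_mul, one_mul, zero_mul]
    rw [Finset.sum_ite_eq]
    simp
  · simp only [actVec, dif_neg h]

lemma actVec_mul (n : ℕ) (M N : Matrix (Fin n) (Fin n) R) (v : ℕ → R) :
    actVec n (M * N) v = actVec n M (actVec n N v) := by
  funext i
  by_cases h : i < n
  · simp only [actVec, dif_pos h, Matrix.mul_apply, Fin.is_lt, dif_pos, Fin.eta, Finset.sum_mul,
      Finset.mul_sum, mul_assoc]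
    exact Finset.sum_comm
  · simp only [actVec, dif_neg h]

/-- `GL_n(R)` as a group of permutations of the set of column vectors of infinite length: the
invertible matrix `u` is the map `v ↦ diag(u, 1, 1, ...) v`. -/
def glPerm (n : ℕ) : (Matrix (Fin n) (Fin n) R)ˣ →* Equiv.Perm (ℕ → R) where
  toFun u :=
    { toFun := actVec n u.val
      invFun := actVec n u.inv
      left_inv := fun v => by rw [← actVec_mul, u.inv_val, actVec_one]
      right_inv := fun v => by rw [← actVec_mul, u.val_inv, actVec_one] }
  map_one' := Equiv.ext fun v => actVec_one R n v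
  map_mul' u u' := Equiv.ext fun v => actVec_mul R n u.val u'.val v

/-- `GL(R)`, the union of the increasing sequence of the groups `GL_n(R)`. -/
def GLR : Subgroup (Equiv.Perm (ℕ → R)) := ⨆ n : ℕ, (glPerm R n).range

/-- `K₁(R) = GL(R) / [GL(R), GL(R)]`. -/
def K1 : Type := Abelianization (GLR R)

instance instCommGroupK1 : CommGroup (K1 R) :=
  (inferInstance : CommGroup (Abelianization (GLR R)))

end K1

/-- The subgroup of the elements of the abelian group `A` (written multiplicatively) that are
`2^n`-th powers for every `n`. -/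
def infHeight (A : Type) [CommGroup A] : Subgroup A :=
  ⨅ n : ℕ, (powMonoidHom (2 ^ n) : A →* A).range

end GrigK
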